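import Pool.Agent.WAQ.StmtsL

/-!
# Squad WAQ, row MCY: the points modulo the kernel of reduction are cyclic modulo the 2-torsion
-/

set_option autoImplicit false

namespace Pool.Agent.WAQ.H24

open Classical WeierstrassCurve.Affine
open Pool.Agent.WAQ

variable [Par]

theorem mcy (hRed : RedStmt) (hT2g : T2gStmt) (hRam : RamStmt) : McyStmt := by
  intro F _ ϖ h d hd
  rcases hd with hd | hd
  · obtain ⟨hp, δ, φ, hδ, hadd, hker⟩ := hRed F ϖ h d hd
    obtain ⟨g', hg'⟩ := h.cyc hp δ hδ
    let φ' : Pt d →+ (W δ).Point := AddMonoidHom.mk' φ hadd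
    let S : AddSubgroup ℤ :=
      { carrier := {k | ∃ P : Pt d, (2 : ℤ) • (φ' P - k • g') = 0}
        zero_mem' := by
          refine ⟨0, ?_⟩
          rw [map_zero, zero_zsmul, sub_zero, zsmul_zero]
        add_mem' := by
          rintro k l ⟨P, hP⟩ ⟨Q, hQ⟩
          refine ⟨P + Q, ?_⟩
          have e : φ' (P + Q) - (k + l) • g' = (φ' P - k • g') + (φ' Q - l • g') := by
            rw [map_add, add_zsmul]
            abel
          rw [e, zsmul_add, hP, hQ, add_zero]
        neg_mem' := by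
          rintro k ⟨P, hP⟩
          refine ⟨-P, ?_⟩
          have e : φ' (-P) - (-k) • g' = -(φ' P - k • g') := by
            rw [map_neg, neg_zsmul]
            abel
          rw [e, zsmul_neg, hP, neg_zero] }
    obtain ⟨k0, hk0⟩ := Int.subgroup_cyclic S
    have hk0S : k0 ∈ S := by
      rw [hk0]
      exact AddSubgroup.subset_closure rfl
    obtain ⟨g, hg⟩ := hk0S
    refine ⟨g, fun P => ?_⟩
    obtain ⟨k, hk⟩ := hg' (φ' P)
    have hkS : k ∈ S := ⟨P, hk⟩
    rw [hk0, AddSubgroup.mem_closure_singleton] at hkS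
    obtain ⟨a, ha⟩ := hkS
    have h2 : φ' ((2 : ℤ) • (P - a • g)) = 0 := by
      rw [map_zsmul, map_sub, map_zsmul]
      have e : (2 : ℤ) • (φ' P - a • φ' g) =
          (2 : ℤ) • (φ' P - k • g') - a • ((2 : ℤ) • (φ' g - k0 • g')) := by
        rw [← ha, zsmul_sub, zsmul_sub, zsmul_sub, zsmul_sub, smul_eq_mul]
        rw [show (2 : ℤ) • (a * k0) • g' = a • (2 : ℤ) • k0 • g' by
            rw [← mul_zsmul, ← mul_zsmul, ← mul_zsmul]
            congr 1
            ring,
          show (2 : ℤ) • a • φ' g = a • (2 : ℤ) • φ' g by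
            rw [← mul_zsmul, ← mul_zsmul]
            congr 1
            ring]
        abel
      rw [e, hk, hg, zsmul_zero, sub_zero]
    have h3 : Big 1 (sm 2 (P - sm a g)) := (hker _).1 h2
    obtain ⟨T, hT, hB⟩ := hT2g F ϖ h d hd (P - sm a g) h3
    exact ⟨a, T, hT, hB⟩
  · refine ⟨0, fun P => ?_⟩
    obtain ⟨T, hT, hB⟩ := hRam F ϖ h d hd P
    refine ⟨0, T, hT, ?_⟩
    have e : sm 0 (0 : Pt d) = 0 := by
      rw [sm_def, zero_zsmul]
    rw [e, sub_zero]
    exact hB

end Pool.Agent.WAQ.H24
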